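import Pool.Agent.Helper76.TC2.Goals

/-!
# Project TC2, packet WT
-/

set_option autoImplicit false

open Finset

namespace Pool.Agent.Helper46.TC2.WT

open Pool.Agent.Helper76.TC2 (W)

section

variable {E : Type*}

/-- concatenation of two chains -/
def cat (k₁ : ℕ) (z₁ z₂ : ℕ → E) : ℕ → E := fun i => if i ≤ k₁ then z₁ i else z₂ (i - k₁)

theorem cat_left {k₁ : ℕ} {z₁ z₂ : ℕ → E} {i : ℕ} (h : i ≤ k₁) : cat k₁ z₁ z₂ i = z₁ i := by
  unfold cat; rw [if_pos h]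

theorem cat_right {k₁ : ℕ} {z₁ z₂ : ℕ → E} (h0 : z₁ k₁ = z₂ 0) (j : ℕ) :
    cat k₁ z₁ z₂ (k₁ + j) = z₂ j := by
  rcases Nat.eq_zero_or_pos j with rfl | hj
  · rw [Nat.add_zero, cat_left le_rfl, h0]
  · unfold cat
    rw [if_neg (by omega), Nat.add_sub_cancel_left]

theorem cat_sum {k₁ : ℕ} {z₁ z₂ : ℕ → E} (h0 : z₁ k₁ = z₂ 0) (k₂ : ℕ) (g : E → E → ℝ) :
    ∑ i ∈ range (k₁ + k₂), g (cat k₁ z₁ z₂ i) (cat k₁ z₁ z₂ (i + 1)) =
      ∑ i ∈ range k₁, g (z₁ i) (z₁ (i + 1)) + ∑ i ∈ range k₂, g (z₂ i) (z₂ (i + 1)) := by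
  rw [Finset.sum_range_add]
  congr 1
  · refine Finset.sum_congr rfl fun i hi => ?_
    have hi' := Finset.mem_range.1 hi
    rw [cat_left (by omega), cat_left (by omega)]
  · refine Finset.sum_congr rfl fun i _ => ?_
    rw [cat_right h0 i, show k₁ + i + 1 = k₁ + (i + 1) by ring, cat_right h0 (i + 1)]

theorem rev_sum (k : ℕ) (z : ℕ → E) (g : E → E → ℝ) (hg : ∀ a b, g a b = g b a) :
    ∑ i ∈ range k, g (z (k - i)) (z (k - (i + 1))) = ∑ i ∈ range k, g (z i) (z (i + 1)) := by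
  rw [← Finset.sum_range_reflect (fun j => g (z j) (z (j + 1))) k]
  refine Finset.sum_congr rfl fun i hi => ?_
  have hi' := Finset.mem_range.1 hi
  rw [hg, show k - (i + 1) = k - 1 - i by omega, show k - i = k - 1 - i + 1 by omega]

end

theorem t : Pool.Agent.Helper76.TC2.S_WT := by
  intro n f
  refine ⟨?_, ?_, ?_, ?_⟩
  · intro a b a' b' x y z h1 h2 η hη
    obtain ⟨k₁, z₁, h10, h1k, h1s, h1a, h1b⟩ := h1 η hη
    obtain ⟨k₂, z₂, h20, h2k, h2s, h2a, h2b⟩ := h2 η hη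
    have h0 : z₁ k₁ = z₂ 0 := by rw [h1k, h20]
    refine ⟨k₁ + k₂, cat k₁ z₁ z₂, ?_, ?_, ?_, ?_, ?_⟩
    · rw [cat_left (Nat.zero_le _), h10]
    · rw [cat_right h0, h2k]
    · intro i hi
      by_cases h : i < k₁
      · rw [cat_left (by omega), cat_left (by omega)]
        exact h1s i h
      · obtain ⟨j, rfl⟩ := Nat.exists_eq_add_of_le (Nat.le_of_not_lt h)
        rw [cat_right h0 j, show k₁ + j + 1 = k₁ + (j + 1) by ring, cat_right h0 (j + 1)]
        exact h2s j (by omega)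
    · rw [cat_sum h0 k₂ (fun a b => ‖a - b‖)]
      exact add_le_add h1a h2a
    · rw [cat_sum h0 k₂ (fun a b => |f a - f b|)]
      exact add_le_add h1b h2b
  · intro a b x y h η hη
    obtain ⟨k, z, h0, hk, hs, ha, hb⟩ := h η hη
    refine ⟨k, fun i => z (k - i), ?_, ?_, ?_, ?_, ?_⟩
    · simpa using hk
    · simpa using h0
    · intro i hi
      have h := hs (k - 1 - i) (by omega)
      show ‖z (k - i) - z (k - (i + 1))‖ ≤ η
      rw [show k - (i + 1) = k - 1 - i by omega, show k - i = k - 1 - i + 1 by omega,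
        norm_sub_rev]
      exact h
    · have := rev_sum k z (fun a b => ‖a - b‖) (fun a b => norm_sub_rev a b)
      show ∑ i ∈ range k, ‖z (k - i) - z (k - (i + 1))‖ ≤ a
      rw [this]; exact ha
    · have := rev_sum k z (fun a b => |f a - f b|) (fun a b => abs_sub_comm _ _)
      show ∑ i ∈ range k, |f (z (k - i)) - f (z (k - (i + 1)))| ≤ b
      rw [this]; exact hb
  · intro a b a' b' x y haa hbb h η hη
    obtain ⟨k, z, h0, hk, hs, ha, hb⟩ := h η hη
    exact ⟨k, z, h0, hk, hs, ha.trans haa, hb.trans hbb⟩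
  · intro x η hη
    refine ⟨0, fun _ => x, rfl, rfl, ?_, ?_, ?_⟩
    · intro i hi; omega
    · simp
    · simp

end Pool.Agent.Helper46.TC2.WT
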